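import Mathlib
import Pool.Agent.Lib.MP_1b9d6e_gt.Defs
import Pool.Agent.Lib.MP_1b9d6e_gt.Proof

set_option autoImplicit false

namespace Pool.Agent.Results.MP_1b9d6e_gt.CoreCompactOfScott

open Pool.Agent.Lib.MP_1b9d6e_gt

universe u

/-- If the lattice of closed subsets of X, ordered by inclusion and given its Scott topology, is
core-compact, then X is core-compact (no separation axiom is needed). -/
theorem result (X : Type u) [TopologicalSpace X]
    (h : CoreCompact (Topology.WithScott (TopologicalSpace.Closeds X))) : CoreCompact X :=
  main X h

end Pool.Agent.Results.MP_1b9d6e_gt.CoreCompactOfScott
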